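import Pool.Agent.Lib.MP_5fcc10_co.Prob

/-! The sprinkling lemma on a finite product space. -/

set_option linter.unusedSectionVars false

namespace Pool.Agent.SK.Lin

open Finset

namespace SPR

variable {V κ : Type*} [Fintype V] [DecidableEq V] [Fintype κ] [Nonempty κ]

/-- fill in the value `a1` on `τ` -/
def fill (a1 : κ) (τ : Finset V) (ψ : V → κ) : V → κ := fun v => if v ∈ τ then a1 else ψ v

lemma fill_in {a1 : κ} {τ : Finset V} {ψ : V → κ} {v : V} (h : v ∈ τ) : fill a1 τ ψ v = a1 :=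
  if_pos h

lemma fill_out {a1 : κ} {τ : Finset V} {ψ : V → κ} {v : V} (h : v ∉ τ) :
    fill a1 τ ψ v = ψ v := if_neg h

lemma T_iff (a0 a1 : κ) (h01 : a0 ≠ a1) (T : (V → κ) → Finset V)
    (hT0 : ∀ ψ, ∀ v ∈ T ψ, ψ v ≠ a0)
    (hT : ∀ ψ ψ', (∀ v, v ∉ T ψ → ψ' v = ψ v) → (∀ v ∈ T ψ, ψ' v ≠ a0) → T ψ' = T ψ)
    (τ : Finset V) (ψ : V → κ) :
    T ψ = τ ↔ (∀ v ∈ τ, ψ v ≠ a0) ∧ T (fill a1 τ ψ) = τ := by
  constructor
  · intro h
    refine ⟨fun v hv => hT0 ψ v (h ▸ hv), ?_⟩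
    have h1 : T (fill a1 τ ψ) = T ψ := by
      refine hT ψ _ (fun v hv => ?_) (fun v hv => ?_)
      · rw [h] at hv
        exact fill_out hv
      · rw [h] at hv
        rw [fill_in hv]
        exact h01.symm
    rw [h1, h]
  · rintro ⟨h1, h2⟩
    have h3 : T ψ = T (fill a1 τ ψ) := by
      refine hT _ ψ (fun v hv => ?_) (fun v hv => ?_)
      · rw [h2] at hv
        exact (fill_out hv).symm
      · rw [h2] at hv
        exact h1 v hv
    rw [h3, h2]

open Classical in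
lemma E_part (a0 a1 : κ) (h01 : a0 ≠ a1) (T : (V → κ) → Finset V)
    (hT0 : ∀ ψ, ∀ v ∈ T ψ, ψ v ≠ a0)
    (hT : ∀ ψ ψ', (∀ v, v ∉ T ψ → ψ' v = ψ v) → (∀ v ∈ T ψ, ψ' v ≠ a0) → T ψ' = T ψ)
    (τ : Finset V) (w : κ → ℝ) (q : ℝ) (hw : ∑ a, (if a = a0 then 0 else w a) = q) :
    E (fun ψ => if T ψ = τ then ∏ v ∈ T ψ, w (ψ v) else 0)
      = E (fun ψ => if T (fill a1 τ ψ) = τ then (1 : ℝ) else 0)
        * (q / Fintype.card κ) ^ τ.card := by
  have h1 : ∀ ψ : V → κ, (if T ψ = τ then ∏ v ∈ T ψ, w (ψ v) else 0)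
      = (if T (fill a1 τ ψ) = τ then (1 : ℝ) else 0)
        * ∏ v ∈ τ, (if ψ v = a0 then 0 else w (ψ v)) := by
    intro ψ
    by_cases h : T ψ = τ
    · have h2 := (T_iff a0 a1 h01 T hT0 hT τ ψ).1 h
      rw [if_pos h, if_pos h2.2, one_mul, h]
      exact prod_congr rfl (fun v hv => (if_neg (h2.1 v hv)).symm)
    · rw [if_neg h]
      by_cases h2 : T (fill a1 τ ψ) = τ
      · have h3 : ∃ v ∈ τ, ψ v = a0 := by
          by_contra hcon
          apply h
          rw [T_iff a0 a1 h01 T hT0 hT τ ψ]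
          refine ⟨fun v hv h4 => hcon ⟨v, hv, h4⟩, h2⟩
        obtain ⟨v, hv, h4⟩ := h3
        have h5 : ∏ v ∈ τ, (if ψ v = a0 then 0 else w (ψ v)) = 0 :=
          prod_eq_zero hv (by rw [if_pos h4])
        rw [h5, mul_zero]
      · rw [if_neg h2, zero_mul]
  rw [E_congr h1]
  rw [E_mul (S := univ \ τ) (T := τ)
    (f := fun ψ => if T (fill a1 τ ψ) = τ then (1 : ℝ) else 0)
    (h := fun ψ => ∏ v ∈ τ, (if ψ v = a0 then 0 else w (ψ v)))]
  · congr 1
    rw [E_prod τ (fun v => {v}) (fun b _ c _ hbc => by simpa using hbc)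
      (fun v ψ => if ψ v = a0 then 0 else w (ψ v))
      (fun b _ φ ψ h => by simp only [h b (mem_singleton_self b)])]
    rw [prod_congr rfl (fun v _ => E_coord v (fun a => if a = a0 then 0 else w a)), hw,
      prod_const]
  · intro φ ψ h
    have : fill a1 τ φ = fill a1 τ ψ := by
      funext v
      by_cases hv : v ∈ τ
      · rw [fill_in hv, fill_in hv]
      · rw [fill_out hv, fill_out hv]
        exact h v (by simp [hv])
    simp only [this]
  · intro φ ψ h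
    exact prod_congr rfl (fun v hv => by rw [h v hv])
  · exact sdiff_disjoint

open Classical in
lemma E_one (a0 a1 : κ) (h01 : a0 ≠ a1) (T : (V → κ) → Finset V)
    (hT0 : ∀ ψ, ∀ v ∈ T ψ, ψ v ≠ a0)
    (hT : ∀ ψ ψ', (∀ v, v ∉ T ψ → ψ' v = ψ v) → (∀ v ∈ T ψ, ψ' v ≠ a0) → T ψ' = T ψ)
    (w : κ → ℝ) (hw : ∑ a, (if a = a0 then 0 else w a) = (Fintype.card κ : ℝ) - 1) :
    E (fun ψ => ∏ v ∈ T ψ, w (ψ v)) = 1 := by
  have h1 : ∑ a : κ, (if a = a0 then 0 else (1 : ℝ)) = (Fintype.card κ : ℝ) - 1 := by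
    have h2 : ∀ a : κ, (if a = a0 then 0 else (1 : ℝ)) = 1 - if a = a0 then 1 else 0 := by
      intro a
      split_ifs <;> norm_num
    rw [sum_congr rfl (fun a _ => h2 a), sum_sub_distrib, sum_const, card_univ, nsmul_eq_mul,
      mul_one, sum_ite_eq' univ a0, if_pos (mem_univ _)]
  have h2 : ∀ τ : Finset V, E (fun ψ => if T ψ = τ then ∏ v ∈ T ψ, w (ψ v) else 0)
      = E (fun ψ => if T ψ = τ then (1 : ℝ) else 0) := by
    intro τ
    rw [E_part a0 a1 h01 T hT0 hT τ w _ hw]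
    have h3 := E_part a0 a1 h01 T hT0 hT τ (fun _ => 1) _ h1
    rw [← h3]
    refine E_congr (fun ψ => ?_)
    simp only [prod_const_one]
  have h3 : ∀ (g : (V → κ) → ℝ), E g = ∑ τ : Finset V, E (fun ψ => if T ψ = τ then g ψ else 0) := by
    intro g
    rw [← E_sum]
    refine E_congr (fun ψ => ?_)
    rw [sum_ite_eq univ (T ψ), if_pos (mem_univ _)]
  rw [h3, sum_congr rfl (fun τ _ => h2 τ), ← h3 (fun _ => 1), E_const]

end SPR

open Classical in
theorem sprinkle {V κ : Type*} [Fintype V] [DecidableEq V] [Fintype κ] [Nonempty κ]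
    (a0 a1 : κ) (h01 : a0 ≠ a1) (hκ : 4 ≤ Fintype.card κ) (T : (V → κ) → Finset V)
    (hT0 : ∀ ψ, ∀ v ∈ T ψ, ψ v ≠ a0)
    (hT : ∀ ψ ψ', (∀ v, v ∉ T ψ → ψ' v = ψ v) → (∀ v ∈ T ψ, ψ' v ≠ a0) → T ψ' = T ψ)
    (m0 θ : ℕ) (hθ : θ ≤ m0) :
    P (fun ψ => m0 ≤ (T ψ).card ∧ ((T ψ).filter (fun v => ψ v = a1)).card ≤ θ)
      ≤ 2 ^ θ * Real.exp (-(((m0 : ℝ) - θ) / (4 * Fintype.card κ))) := by
  set K : ℝ := (Fintype.card κ : ℝ) with hK
  have hK4 : (4 : ℝ) ≤ K := by rw [hK]; exact_mod_cast hκ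
  set y : ℝ := 1 + 1 / (2 * (K - 2)) with hy
  have hy1 : 1 ≤ y := by
    rw [hy]
    have : 0 ≤ 1 / (2 * (K - 2)) := by
      apply div_nonneg zero_le_one
      linarith
    linarith
  have hyexp : Real.exp (1 / (4 * K)) ≤ y := by
    have h1 : (0 : ℝ) ≤ 1 / (4 * K) := by positivity
    have h2 : 1 / (4 * K) ≤ 1 / 2 := by
      apply one_div_le_one_div_of_le (by norm_num)
      linarith
    have h3 : Real.exp (1 / (4 * K)) ≤ 1 + 2 * (1 / (4 * K)) := by
      have h4 : |1 / (4 * K)| ≤ 1 := by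
        rw [abs_of_nonneg h1]
        linarith
      have h5 := (abs_le.1 (Real.abs_exp_sub_one_sub_id_le h4)).2
      nlinarith
    refine h3.trans ?_
    rw [hy]
    have h6 : 2 * (1 / (4 * K)) = 1 / (2 * K) := by
      field_simp
      norm_num
    rw [h6]
    have h7 : 1 / (2 * K) ≤ 1 / (2 * (K - 2)) := by
      apply one_div_le_one_div_of_le
      · linarith
      · linarith
    linarith
  set w : κ → ℝ := fun a => if a = a1 then 1 / 2 else y with hwdef
  have hwsum : ∑ a, (if a = a0 then 0 else w a) = (Fintype.card κ : ℝ) - 1 := by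
    have h2 : ∀ a : κ, (if a = a0 then 0 else w a)
        = y - (if a = a0 then y else 0) - (if a = a1 then y - 1 / 2 else 0) := by
      intro a
      rw [hwdef]
      simp only
      by_cases ha : a = a0
      · have ha1 : a ≠ a1 := fun h => h01 (ha ▸ h)
        rw [if_pos ha, if_pos ha, if_neg ha1]
        ring
      · by_cases ha1 : a = a1
        · rw [if_neg ha, if_neg ha, if_pos ha1, if_pos ha1]
          ring
        · rw [if_neg ha, if_neg ha, if_neg ha1, if_neg ha1]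
          ring
    rw [sum_congr rfl (fun a _ => h2 a), sum_sub_distrib, sum_sub_distrib, sum_const, card_univ,
      nsmul_eq_mul, sum_ite_eq' univ a0, if_pos (mem_univ _), sum_ite_eq' univ a1,
      if_pos (mem_univ _), ← hK, hy]
    have : K - 2 ≠ 0 := by
      intro h
      linarith
    field_simp
    ring
  have hE := SPR.E_one a0 a1 h01 T hT0 hT w hwsum
  have hw0 : ∀ a, 0 ≤ w a := by
    intro a
    rw [hwdef]
    simp only
    split_ifs
    · norm_num
    · linarith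
  set Lw : ℝ := (1 / 2) ^ θ * y ^ (m0 - θ) with hLw
  have hLpos : 0 < Lw := by positivity
  have hmain : P (fun ψ => m0 ≤ (T ψ).card ∧ ((T ψ).filter (fun v => ψ v = a1)).card ≤ θ)
      ≤ Lw⁻¹ * E (fun ψ => ∏ v ∈ T ψ, w (ψ v)) := by
    rw [← E_mul_left]
    refine E_mono (fun ψ => ?_)
    by_cases h : m0 ≤ (T ψ).card ∧ ((T ψ).filter (fun v => ψ v = a1)).card ≤ θ
    · rw [if_pos h]
      obtain ⟨h1, h2⟩ := h
      have h3 : ∏ v ∈ T ψ, w (ψ v) = (1 / 2) ^ ((T ψ).filter (fun v => ψ v = a1)).card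
          * y ^ ((T ψ).filter (fun v => ¬ ψ v = a1)).card := by
        rw [hwdef]
        simp only
        rw [prod_ite, prod_const, prod_const]
      have h4 : ((T ψ).filter (fun v => ψ v = a1)).card
          + ((T ψ).filter (fun v => ¬ ψ v = a1)).card = (T ψ).card :=
        card_filter_add_card_filter_not _
      have h5 : Lw ≤ ∏ v ∈ T ψ, w (ψ v) := by
        rw [h3, hLw]
        apply mul_le_mul
        · exact pow_le_pow_of_le_one (by norm_num) (by norm_num) h2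
        · exact pow_le_pow_right₀ hy1 (by omega)
        · positivity
        · positivity
      rw [← div_eq_inv_mul, le_div_iff₀ hLpos, one_mul]
      exact h5
    · rw [if_neg h]
      apply mul_nonneg (inv_nonneg.2 hLpos.le)
      exact prod_nonneg (fun v _ => hw0 _)
  rw [hE, mul_one] at hmain
  refine hmain.trans ?_
  rw [hLw, mul_inv]
  have h1 : (((1 : ℝ) / 2) ^ θ)⁻¹ = 2 ^ θ := by
    rw [one_div, inv_pow, inv_inv]
  rw [h1]
  apply mul_le_mul_of_nonneg_left _ (by positivity)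
  rw [Real.exp_neg]
  apply inv_anti₀ (Real.exp_pos _)
  have h2 : ((m0 : ℝ) - θ) / (4 * K) = ((m0 - θ : ℕ) : ℝ) * (1 / (4 * K)) := by
    rw [Nat.cast_sub hθ]
    ring
  rw [h2, Real.exp_nat_mul]
  exact pow_le_pow_left₀ (Real.exp_pos _).le hyexp _

end Pool.Agent.SK.Lin
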