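import Pool.Agent.Lib.MP_5fcc10_co_lin.MidDefs
import Pool.Agent.Lib.MP_5fcc10_co_lin_h69.SPR

/-! Locality of the balls in the first half of a class, and the probability that few edges of the
boundary belong to the second half. -/

set_option linter.unusedSectionVars false

namespace Pool.Agent.SK.Lin

open Finset
open scoped symmDiff

variable {n p k : ℕ}

namespace BALL

lemma op0_iff (cl : Lb p) (ψ : Ix n → Lb p) (v : Finset (Fin n)) (e : Fin n) :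
    op0 cl ψ v e ↔ ψ (ed v e) = (cl.1, 0) ∧ ty ψ v e = cl.2 := by
  unfold op0 opP col
  rw [Prod.ext_iff]
  tauto

lemma ty_congr {ψ ψ' : Ix n → Lb p} {v : Finset (Fin n)} {e : Fin n}
    (h1 : ψ (v, none) = ψ' (v, none)) (h2 : ψ (tg v e, none) = ψ' (tg v e, none)) :
    ty ψ v e = ty ψ' v e := by
  unfold ty bt
  rw [h1, h2]

lemma KB_succ (cl : Lb p) (ψ : Ix n → Lb p) (r : Finset (Fin n)) (ρ : ℕ)
    (w : Finset (Fin n)) : w ∈ KB k cl ψ r (ρ + 1) ↔ w ∈ KB k cl ψ r ρ ∨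
      ∃ v ∈ KB k cl ψ r ρ, ∃ e ∈ nb k v, op0 cl ψ v e ∧ w = tg v e := by
  rw [KB]
  simp only [mem_filter, mem_univ, true_and]

lemma KB_sub_ham (cl : Lb p) (ψ : Ix n → Lb p) (r : Finset (Fin n)) :
    ∀ ρ, KB k cl ψ r ρ ⊆ ham r ρ
  | 0 => by
    intro w hw
    rw [KB, mem_singleton] at hw
    rw [hw]
    exact ham_self r 0
  | ρ + 1 => by
    intro w hw
    rw [KB_succ] at hw
    rcases hw with hw | ⟨v, hv, e, _, _, rfl⟩
    · exact ham_mono (Nat.le_succ ρ) (KB_sub_ham cl ψ r ρ hw)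
    · exact ham_trans (KB_sub_ham cl ψ r ρ hv) (tg_mem_ham v e)

lemma KB_congr (cl : Lb p) (ψ ψ' : Ix n → Lb p) (r : Finset (Fin n)) :
    ∀ ρ, (∀ x ∈ hamI r ρ, ψ x = ψ' x) → KB k cl ψ r ρ = KB k cl ψ' r ρ
  | 0, _ => by rw [KB, KB]
  | ρ + 1, h => by
    have ih := KB_congr cl ψ ψ' r ρ (fun x hx => h x (hamI_mono (Nat.le_succ ρ) hx))
    ext w
    rw [KB_succ, KB_succ, ih]
    have key : ∀ v ∈ KB k cl ψ' r ρ, ∀ e, op0 cl ψ v e ↔ op0 cl ψ' v e := by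
      intro v hv e
      have hv1 : v ∈ ham r ρ := KB_sub_ham cl ψ' r ρ hv
      have hv2 : v ∈ ham r (ρ + 1) := ham_mono (Nat.le_succ ρ) hv1
      have hv3 : tg v e ∈ ham r (ρ + 1) := ham_trans hv1 (tg_mem_ham v e)
      rw [op0_iff, op0_iff, h _ (ed_mem_hamI hv2 hv3),
        ty_congr (h _ (mem_hamI_none.2 hv2)) (h _ (mem_hamI_none.2 hv3))]
    constructor
    · rintro (hw | ⟨v, hv, e, he, h1, h2⟩)
      · exact Or.inl hw
      · exact Or.inr ⟨v, hv, e, he, (key v hv e).1 h1, h2⟩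
    · rintro (hw | ⟨v, hv, e, he, h1, h2⟩)
      · exact Or.inl hw
      · exact Or.inr ⟨v, hv, e, he, (key v hv e).2 h1, h2⟩

lemma mem_TS {cl : Lb p} {ρ : ℕ} {S : Finset (Finset (Fin n))} {ψ : Ix n → Lb p} {y : Ix n} :
    y ∈ TS k cl ρ S ψ ↔ ∃ v e, (v, e) ∈ bdy k (KS k cl ψ ρ S) ∧ ty ψ v e = cl.2 ∧
      ψ (ed v e) ≠ (cl.1, 0) ∧ ed v e = y := by
  unfold TS
  rw [mem_image]
  constructor
  · rintro ⟨x, hx, rfl⟩
    rw [mem_filter] at hx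
    exact ⟨x.1, x.2, hx.1, hx.2.1, hx.2.2, rfl⟩
  · rintro ⟨v, e, h1, h2, h3, h4⟩
    exact ⟨(v, e), mem_filter.2 ⟨h1, h2, h3⟩, h4⟩

lemma mem_bdy {Q : Finset (Finset (Fin n))} {v : Finset (Fin n)} {e : Fin n} :
    (v, e) ∈ bdy k Q ↔ v ∈ Q ∧ e ∈ nb k v ∧ tg v e ∉ Q := by
  unfold bdy
  rw [mem_filter, mem_product]
  simp

lemma KS_sub (cl : Lb p) (ψ : Ix n → Lb p) (ρ : ℕ) (S : Finset (Finset (Fin n)))
    {v : Finset (Fin n)} (hv : v ∈ KS k cl ψ ρ S) : ∃ r ∈ S, v ∈ ham r (2 * ρ) := by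
  unfold KS at hv
  rw [mem_biUnion] at hv
  obtain ⟨r, hr, hv⟩ := hv
  exact ⟨r, hr, KB_sub_ham cl ψ r _ hv⟩

lemma TS_sub (cl : Lb p) (ρ : ℕ) (S : Finset (Finset (Fin n))) (ψ : Ix n → Lb p) {y : Ix n}
    (hy : y ∈ TS k cl ρ S ψ) : ∃ r ∈ S, y ∈ hamI r (2 * ρ + 1) := by
  obtain ⟨v, e, h1, h2, h3, rfl⟩ := mem_TS.1 hy
  obtain ⟨r, hr, hv⟩ := KS_sub cl ψ ρ S (mem_bdy.1 h1).1
  exact ⟨r, hr, ed_mem_hamI (ham_mono (Nat.le_succ _) hv) (ham_trans hv (tg_mem_ham v e))⟩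

lemma TS_congr (cl : Lb p) (ρ : ℕ) (S : Finset (Finset (Fin n))) (ψ ψ' : Ix n → Lb p)
    (hKS : KS k cl ψ ρ S = KS k cl ψ' ρ S)
    (h : ∀ v e, v ∈ KS k cl ψ ρ S → (ty ψ v e = cl.2 ↔ ty ψ' v e = cl.2) ∧
      (ψ (ed v e) ≠ (cl.1, 0) ↔ ψ' (ed v e) ≠ (cl.1, 0))) :
    TS k cl ρ S ψ = TS k cl ρ S ψ' := by
  ext y
  rw [mem_TS, mem_TS, ← hKS]
  constructor
  · rintro ⟨v, e, h1, h2, h3, h4⟩
    have h5 := h v e (mem_bdy.1 h1).1
    exact ⟨v, e, h1, h5.1.1 h2, h5.2.1 h3, h4⟩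
  · rintro ⟨v, e, h1, h2, h3, h4⟩
    have h5 := h v e (mem_bdy.1 h1).1
    exact ⟨v, e, h1, h5.1.2 h2, h5.2.2 h3, h4⟩

end BALL

open BALL

theorem dep_BS (cl : Lb p) (ρ m0 : ℕ) (S : Finset (Finset (Fin n))) :
    Dep (BSev k cl ρ m0 S) (S.biUnion (fun r => hamI r (2 * ρ + 1))) := by
  classical
  intro ψ ψ' h
  have h' : ∀ r ∈ S, ∀ x ∈ hamI r (2 * ρ + 1), ψ x = ψ' x := fun r hr x hx =>
    h x (mem_biUnion.2 ⟨r, hr, hx⟩)
  have hKS : KS k cl ψ ρ S = KS k cl ψ' ρ S := by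
    unfold KS
    exact biUnion_congr rfl (fun r hr => KB_congr cl ψ ψ' r _
      (fun x hx => h' r hr x (hamI_mono (Nat.le_succ _) hx)))
  have hTS : TS k cl ρ S ψ = TS k cl ρ S ψ' := by
    refine TS_congr cl ρ S ψ ψ' hKS (fun v e hv => ?_)
    obtain ⟨r, hr, hv1⟩ := KS_sub cl ψ ρ S hv
    have hv2 : v ∈ ham r (2 * ρ + 1) := ham_mono (Nat.le_succ _) hv1
    have hv3 : tg v e ∈ ham r (2 * ρ + 1) := ham_trans hv1 (tg_mem_ham v e)
    rw [h' r hr _ (ed_mem_hamI hv2 hv3),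
      ty_congr (h' r hr _ (mem_hamI_none.2 hv2)) (h' r hr _ (mem_hamI_none.2 hv3))]
    exact ⟨Iff.rfl, Iff.rfl⟩
  have hF : (TS k cl ρ S ψ').filter (fun y => ψ y = (cl.1, 1))
      = (TS k cl ρ S ψ').filter (fun y => ψ' y = (cl.1, 1)) := by
    refine filter_congr (fun y hy => ?_)
    obtain ⟨r, hr, hy1⟩ := TS_sub cl ρ S ψ' hy
    rw [h' r hr y hy1]
  unfold BSev
  rw [hTS, hF]

theorem P_BS [NeZero p] (hp : 2 ≤ p) (cl : Lb p) (ρ m0 : ℕ) (hm0 : 1 ≤ m0)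
    (S : Finset (Finset (Fin n))) :
    P (BSev k cl ρ m0 S) ≤ 2 ^ S.card *
      Real.exp (-((((m0 : ℝ) - 1) * S.card) / (8 * p))) := by
  classical
  have hcard : Fintype.card (Lb p) = 2 * p := by
    rw [Fintype.card_prod, ZMod.card, ZMod.card]
    ring
  have h := sprinkle (V := Ix n) (κ := Lb p) (cl.1, 0) (cl.1, 1) (by
      intro h
      have := congrArg Prod.snd h
      exact absurd this (by simp)) (by rw [hcard]; omega) (fun ψ => TS k cl ρ S ψ) ?_ ?_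
    (m0 * S.card) S.card (Nat.le_mul_of_pos_left _ hm0)
  · have e1 : (((m0 * S.card : ℕ) : ℝ) - S.card) / (4 * (Fintype.card (Lb p) : ℕ))
        = (((m0 : ℝ) - 1) * S.card) / (8 * p) := by
      rw [hcard]
      push_cast
      ring
    rw [e1] at h
    refine le_trans (P_mono (fun ψ hψ => ?_)) h
    unfold BSev at hψ
    convert hψ
  · intro ψ v hv
    obtain ⟨u, e, _, _, h3, rfl⟩ := mem_TS.1 hv
    exact h3
  · intro ψ ψ' h1 h2
    have hbit : ∀ u, ψ' (u, none) = ψ (u, none) := by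
      intro u
      apply h1
      intro hmem
      obtain ⟨v, e, _, _, _, h4⟩ := mem_TS.1 hmem
      exact absurd (congrArg Prod.snd h4) (by simp [ed])
    have hty : ∀ v e, ty ψ' v e = ty ψ v e := fun v e => ty_congr (hbit v) (hbit _)
    have h0 : ∀ x, ψ' x = (cl.1, 0) ↔ ψ x = (cl.1, 0) := by
      intro x
      by_cases hx : x ∈ TS k cl ρ S ψ
      · obtain ⟨v, e, _, _, h3, rfl⟩ := mem_TS.1 hx
        exact ⟨fun h => absurd h (h2 _ hx), fun h => absurd h h3⟩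
      · rw [h1 x hx]
    have hop : ∀ v e, op0 cl ψ' v e ↔ op0 cl ψ v e := by
      intro v e
      rw [op0_iff, op0_iff, h0, hty]
    have hKB : ∀ r j, KB k cl ψ' r j = KB k cl ψ r j := by
      intro r j
      induction j with
      | zero => rw [KB, KB]
      | succ j ih =>
        ext w
        rw [KB_succ, KB_succ, ih]
        simp only [hop]
    have hKS : KS k cl ψ' ρ S = KS k cl ψ ρ S := by
      unfold KS
      exact biUnion_congr rfl (fun r _ => hKB r _)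
    refine TS_congr cl ρ S ψ' ψ hKS (fun v e _ => ?_)
    rw [hty, ne_eq, ne_eq, h0]
    exact ⟨Iff.rfl, Iff.rfl⟩

end Pool.Agent.SK.Lin
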